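import Mathlib

/-!
# Mixed permanents: expansion, stability, and univariate sections

`M a ℓ cols A` is the sum over all injections `σ` of the list `cols` of columns into the finite set
`A` of rows of `∏ a (σ c) c` times the product of `ℓ r` over the rows not used.
-/

set_option linter.unusedSectionVars false

namespace Pool.Agent.H66.FX

open Finset

variable {ρ γ : Type*} [DecidableEq ρ] [DecidableEq γ]

section Defs
variable {R : Type*} [CommSemiring R]

/-- Mixed permanent of the columns `cols` on the rows `A`; the unused rows `r` contribute `ℓ r`. -/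
def M (a : ρ → γ → R) (ℓ : ρ → R) : List γ → Finset ρ → R
  | [], A => ∏ r ∈ A, ℓ r
  | c :: T, A => ∑ r ∈ A, a r c * M a ℓ T (A.erase r)

@[simp] theorem M_nil (a : ρ → γ → R) (ℓ : ρ → R) (A : Finset ρ) : M a ℓ [] A = ∏ r ∈ A, ℓ r := rfl

theorem M_cons (a : ρ → γ → R) (ℓ : ρ → R) (c : γ) (T : List γ) (A : Finset ρ) :
    M a ℓ (c :: T) A = ∑ r ∈ A, a r c * M a ℓ T (A.erase r) := rfl

theorem sum_erase_comm (A : Finset ρ) (f : ρ → ρ → R) :
    ∑ r ∈ A, ∑ s ∈ A.erase r, f r s = ∑ s ∈ A, ∑ r ∈ A.erase s, f r s := by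
  apply Finset.sum_comm'
  intro x y
  simp only [mem_erase]
  tauto

theorem M_swap (a : ρ → γ → R) (ℓ : ρ → R) (c d : γ) (T : List γ) (A : Finset ρ) :
    M a ℓ (c :: d :: T) A = M a ℓ (d :: c :: T) A := by
  simp only [M_cons, mul_sum]
  rw [sum_erase_comm]
  refine sum_congr rfl fun s _ => sum_congr rfl fun r _ => ?_
  rw [Finset.erase_right_comm]
  ring

theorem M_perm (a : ρ → γ → R) (ℓ : ρ → R) {T T' : List γ} (h : T.Perm T') :
    ∀ A : Finset ρ, M a ℓ T A = M a ℓ T' A := by
  induction h with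
  | nil => intro A; rfl
  | cons x _ ih => intro A; simp only [M_cons, ih]
  | swap x y l => intro A; exact M_swap a ℓ y x l A
  | trans _ _ ih1 ih2 => intro A; rw [ih1, ih2]

/-- The mixed permanent for a finite set of columns. -/
noncomputable def P (a : ρ → γ → R) (ℓ : ρ → R) (T : Finset γ) (A : Finset ρ) : R :=
  M a ℓ T.toList A

theorem P_empty (a : ρ → γ → R) (ℓ : ρ → R) (A : Finset ρ) : P a ℓ ∅ A = ∏ r ∈ A, ℓ r := by
  simp [P]

theorem P_insert (a : ρ → γ → R) (ℓ : ρ → R) {T : Finset γ} {c : γ} (hc : c ∉ T) (A : Finset ρ) :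
    P a ℓ (insert c T) A = ∑ r ∈ A, a r c * P a ℓ T (A.erase r) := by
  unfold P
  rw [M_perm a ℓ (Finset.toList_insert hc) A, M_cons]

theorem P_col (a : ρ → γ → R) (ℓ : ρ → R) {T : Finset γ} {c : γ} (hc : c ∈ T) (A : Finset ρ) :
    P a ℓ T A = ∑ r ∈ A, a r c * P a ℓ (T.erase c) (A.erase r) := by
  conv_lhs => rw [← Finset.insert_erase hc]
  exact P_insert a ℓ (Finset.notMem_erase c T) A

theorem P_row (a : ρ → γ → R) (ℓ : ρ → R) (T : Finset γ) :
    ∀ (A : Finset ρ) {r : ρ}, r ∈ A →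
      P a ℓ T A = ℓ r * P a ℓ T (A.erase r) + ∑ c ∈ T, a r c * P a ℓ (T.erase c) (A.erase r) := by
  induction T using Finset.induction_on with
  | empty =>
    intro A r hr
    simp only [P_empty, sum_empty, add_zero]
    exact (Finset.mul_prod_erase A ℓ hr).symm
  | insert c T hc ih =>
    intro A r hr
    rw [P_insert a ℓ hc, ← Finset.add_sum_erase A _ hr, Finset.sum_insert hc,
      Finset.erase_insert hc]
    have h1 : ∀ s ∈ A.erase r, a s c * P a ℓ T (A.erase s) =
        ℓ r * (a s c * P a ℓ T ((A.erase r).erase s)) +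
          ∑ d ∈ T, a r d * (a s c * P a ℓ (T.erase d) ((A.erase r).erase s)) := by
      intro s hs
      rw [mem_erase] at hs
      rw [ih (A.erase s) (r := r) (mem_erase.2 ⟨Ne.symm hs.1, hr⟩), Finset.erase_right_comm,
        mul_add, mul_sum]
      congr 1
      · ring
      · exact sum_congr rfl fun d _ => by ring
    rw [sum_congr rfl h1, sum_add_distrib, ← mul_sum, ← P_insert a ℓ hc, sum_comm]
    have h2 : ∀ d ∈ T, ∑ s ∈ A.erase r, a r d * (a s c * P a ℓ (T.erase d) ((A.erase r).erase s)) =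
        a r d * P a ℓ ((insert c T).erase d) (A.erase r) := by
      intro d hd
      have hdc : d ≠ c := fun h => hc (h ▸ hd)
      rw [← mul_sum, Finset.erase_insert_of_ne (Ne.symm hdc),
        P_insert a ℓ (fun h => hc (Finset.mem_of_mem_erase h))]
    rw [sum_congr rfl h2]
    ring

theorem M_homog (a : ρ → γ → R) (ℓ : ρ → R) (w : R) (T : List γ) :
    ∀ A : Finset ρ, M a (fun r => w * ℓ r) T A * w ^ T.length = w ^ A.card * M a ℓ T A := by
  induction T with
  | nil =>
    intro A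
    simp [prod_mul_distrib]
  | cons c T ih =>
    intro A
    rw [M_cons, M_cons, mul_sum, sum_mul]
    refine sum_congr rfl fun r hr => ?_
    have h := ih (A.erase r)
    have hcard : A.card = (A.erase r).card + 1 := (Finset.card_erase_add_one hr).symm
    rw [List.length_cons, hcard, pow_succ, pow_succ]
    calc a r c * M a (fun r => w * ℓ r) T (A.erase r) * (w ^ T.length * w)
        = a r c * w * (M a (fun r => w * ℓ r) T (A.erase r) * w ^ T.length) := by ring
      _ = a r c * w * (w ^ (A.erase r).card * M a ℓ T (A.erase r)) := by rw [h]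
      _ = _ := by ring

theorem M_map {S : Type*} [CommSemiring S] (φ : R →+* S) (a : ρ → γ → R) (ℓ : ρ → R) (T : List γ) :
    ∀ A : Finset ρ, φ (M a ℓ T A) = M (fun r c => φ (a r c)) (fun r => φ (ℓ r)) T A := by
  induction T with
  | nil => intro A; simp
  | cons c T ih => intro A; simp [M_cons, ih]

theorem M_congr {a a' : ρ → γ → R} {ℓ ℓ' : ρ → R} (T : List γ) :
    ∀ A : Finset ρ, (∀ r ∈ A, ∀ c ∈ T, a r c = a' r c) → (∀ r ∈ A, ℓ r = ℓ' r) →
      M a ℓ T A = M a' ℓ' T A := by
  induction T with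
  | nil => intro A _ h; exact prod_congr rfl h
  | cons c T ih =>
    intro A h h'
    rw [M_cons, M_cons]
    refine sum_congr rfl fun r hr => ?_
    rw [h r hr c (List.mem_cons_self ..), ih (A.erase r)
      (fun s hs d hd => h s (mem_of_mem_erase hs) d (List.mem_cons_of_mem _ hd))
      (fun s hs => h' s (mem_of_mem_erase hs))]

end Defs

/-! ### Stability -/

section Stable

theorem re_inv_pos {z : ℂ} (h : 0 < z.re) : 0 < (z⁻¹).re := by
  rw [Complex.inv_re]
  have : z ≠ 0 := by rintro rfl; simp at h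
  exact div_pos h (Complex.normSq_pos.2 this)

theorem stable_aux (a : ρ → γ → ℝ) (ℓ : ρ → ℂ) :
    ∀ (n : ℕ) (T : Finset γ) (A : Finset ρ), T.card + A.card = n →
      (∀ r ∈ A, ∀ c ∈ T, 0 < a r c) → (∀ r ∈ A, 0 < (ℓ r).re) →
      ((T.card ≤ A.card → P (fun r c => (a r c : ℂ)) ℓ T A ≠ 0) ∧
       (∀ r ∈ A, T.card < A.card → 0 < (P (fun r c => (a r c : ℂ)) ℓ T A /
          P (fun r c => (a r c : ℂ)) ℓ T (A.erase r)).re) ∧
       (∀ c ∈ T, T.card ≤ A.card → 0 < (P (fun r c => (a r c : ℂ)) ℓ T A /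
          P (fun r c => (a r c : ℂ)) ℓ (T.erase c) A).re)) := by
  intro n
  induction n using Nat.strong_induction_on with
  | _ n ih =>
    intro T A hn ha hl
    set Q := P (fun r c => (a r c : ℂ)) ℓ with hQ
    have key2 : ∀ r ∈ A, T.card < A.card → 0 < (Q T A / Q T (A.erase r)).re := by
      intro r hr hlt
      have hcA : (A.erase r).card + 1 = A.card := Finset.card_erase_add_one hr
      obtain ⟨h1, _, h3⟩ := ih (T.card + (A.erase r).card) (by omega) T (A.erase r) rfl
        (fun s hs c hc => ha s (mem_of_mem_erase hs) c hc) (fun s hs => hl s (mem_of_mem_erase hs))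
      have hne : Q T (A.erase r) ≠ 0 := h1 (by omega)
      have hrow : Q T A / Q T (A.erase r) = ℓ r +
          ∑ c ∈ T, (a r c : ℂ) * (Q T (A.erase r) / Q (T.erase c) (A.erase r))⁻¹ := by
        rw [hQ, P_row _ _ T A hr, ← hQ, add_div, mul_div_cancel_right₀ _ hne, sum_div]
        congr 1
        refine sum_congr rfl fun c _ => ?_
        rw [inv_div, mul_div_assoc]
      rw [hrow, Complex.add_re, Complex.re_sum]
      have : 0 ≤ ∑ c ∈ T, ((a r c : ℂ) * (Q T (A.erase r) / Q (T.erase c) (A.erase r))⁻¹).re := by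
        refine sum_nonneg fun c hc => ?_
        rw [Complex.re_ofReal_mul]
        exact mul_nonneg (ha r hr c hc).le (re_inv_pos (h3 c hc (by omega))).le
      linarith [hl r hr]
    have key3 : ∀ c ∈ T, T.card ≤ A.card → 0 < (Q T A / Q (T.erase c) A).re := by
      intro c hc hle
      have hcT : (T.erase c).card + 1 = T.card := Finset.card_erase_add_one hc
      obtain ⟨h1, h2, _⟩ := ih ((T.erase c).card + A.card) (by omega) (T.erase c) A rfl
        (fun s hs d hd => ha s hs d (mem_of_mem_erase hd)) hl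
      have hcol : Q T A / Q (T.erase c) A =
          ∑ r ∈ A, (a r c : ℂ) * (Q (T.erase c) A / Q (T.erase c) (A.erase r))⁻¹ := by
        rw [hQ, P_col _ _ hc A, ← hQ, sum_div]
        refine sum_congr rfl fun r _ => ?_
        rw [inv_div, mul_div_assoc]
      rw [hcol, Complex.re_sum]
      have hA : A.Nonempty := by
        rw [← Finset.card_pos]; omega
      refine sum_pos (fun r hr => ?_) hA
      rw [Complex.re_ofReal_mul]
      exact mul_pos (ha r hr c hc) (re_inv_pos (h2 r hr (by omega)))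
    refine ⟨fun hle => ?_, key2, key3⟩
    rcases T.eq_empty_or_nonempty with rfl | ⟨c, hc⟩
    · rw [hQ, P_empty]
      refine prod_ne_zero_iff.2 fun r hr h0 => ?_
      have := hl r hr
      rw [h0] at this
      simp at this
    · intro h0
      have := key3 c hc hle
      rw [h0] at this
      simp at this

theorem stable {a : ρ → γ → ℝ} {ℓ : ρ → ℂ} {T : Finset γ} {A : Finset ρ}
    (hTA : T.card ≤ A.card) (ha : ∀ r ∈ A, ∀ c ∈ T, 0 < a r c) (hl : ∀ r ∈ A, 0 < (ℓ r).re) :
    P (fun r c => (a r c : ℂ)) ℓ T A ≠ 0 :=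
  (stable_aux a ℓ _ T A rfl ha hl).1 hTA

/-- All complex zeros of the univariate section `t ↦ P (m + b t)` are negative reals or zero. -/
theorem section_roots {a : ρ → γ → ℝ} {m b : ρ → ℝ} {T : Finset γ} {A : Finset ρ}
    (hTA : T.card ≤ A.card) (ha : ∀ r ∈ A, ∀ c ∈ T, 0 < a r c) (hm : ∀ r ∈ A, 0 < m r)
    (hb : ∀ r ∈ A, 0 ≤ b r) {t : ℂ} (ht : t ∈ Complex.slitPlane) :
    P (fun r c => (a r c : ℂ)) (fun r => (m r : ℂ) + (b r : ℂ) * t) T A ≠ 0 := by
  have ht0 : t ≠ 0 := Complex.slitPlane_ne_zero ht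
  set s : ℂ := t ^ ((1 / 2 : ℝ) : ℂ) with hs
  have hs2 : s ^ 2 = t := by
    rw [hs, ← Complex.cpow_nat_mul]
    norm_num
  have hs0 : s ≠ 0 := by
    intro h; rw [h] at hs2; simp at hs2; exact ht0 hs2.symm
  have hsre : 0 < s.re := by
    rw [hs, Complex.cpow_ofReal_re]
    refine mul_pos (Real.rpow_pos_of_pos (norm_pos_iff.2 ht0) _) ?_
    apply Real.cos_pos_of_mem_Ioo
    have h1 := Complex.neg_pi_lt_arg t
    have h2 : Complex.arg t < Real.pi :=
      lt_of_le_of_ne (Complex.arg_le_pi t) (Complex.mem_slitPlane_iff_arg.1 ht).1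
    constructor <;> linarith
  have hne := stable (a := a) (ℓ := fun r => s⁻¹ * ((m r : ℂ) + (b r : ℂ) * t)) hTA ha (by
    intro r hr
    have : s⁻¹ * ((m r : ℂ) + (b r : ℂ) * t) = (m r : ℂ) * s⁻¹ + (b r : ℂ) * s := by
      rw [← hs2]; field_simp
    rw [this, Complex.add_re, Complex.re_ofReal_mul, Complex.re_ofReal_mul]
    have := mul_pos (hm r hr) (re_inv_pos hsre)
    have := mul_nonneg (hb r hr) hsre.le
    linarith)
  intro h0
  apply hne
  have hh := M_homog (fun r c => (a r c : ℂ)) (fun r => (m r : ℂ) + (b r : ℂ) * t) s⁻¹ T.toList A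
  unfold P at h0 ⊢
  rw [h0, mul_zero] at hh
  exact (mul_eq_zero.1 hh).resolve_right (pow_ne_zero _ (inv_ne_zero hs0))

end Stable

/-! ### Positivity, monotonicity, continuity over the reals -/

section Real

theorem M_nonneg {a : ρ → γ → ℝ} {ℓ : ρ → ℝ} (T : List γ) :
    ∀ A : Finset ρ, (∀ r ∈ A, ∀ c ∈ T, 0 ≤ a r c) → (∀ r ∈ A, 0 ≤ ℓ r) → 0 ≤ M a ℓ T A := by
  induction T with
  | nil => intro A _ h; exact prod_nonneg h
  | cons c T ih =>
    intro A h h'
    rw [M_cons]
    refine sum_nonneg fun r hr => mul_nonneg (h r hr c (List.mem_cons_self ..)) (ih _ ?_ ?_)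
    · exact fun s hs d hd => h s (mem_of_mem_erase hs) d (List.mem_cons_of_mem _ hd)
    · exact fun s hs => h' s (mem_of_mem_erase hs)

theorem M_pos {a : ρ → γ → ℝ} {ℓ : ρ → ℝ} (T : List γ) :
    ∀ A : Finset ρ, T.length ≤ A.card → (∀ r ∈ A, ∀ c ∈ T, 0 < a r c) → (∀ r ∈ A, 0 < ℓ r) →
      0 < M a ℓ T A := by
  induction T with
  | nil => intro A _ _ h; exact prod_pos h
  | cons c T ih =>
    intro A hle h h'
    rw [M_cons]
    rw [List.length_cons] at hle
    have hA : A.Nonempty := by rw [← Finset.card_pos]; omega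
    refine sum_pos (fun r hr => mul_pos (h r hr c (List.mem_cons_self ..)) (ih _ ?_ ?_ ?_)) hA
    · rw [Finset.card_erase_of_mem hr]; omega
    · exact fun s hs d hd => h s (mem_of_mem_erase hs) d (List.mem_cons_of_mem _ hd)
    · exact fun s hs => h' s (mem_of_mem_erase hs)

theorem M_mono {a a' : ρ → γ → ℝ} {ℓ ℓ' : ρ → ℝ} (T : List γ) :
    ∀ A : Finset ρ, (∀ r ∈ A, ∀ c ∈ T, 0 ≤ a r c) → (∀ r ∈ A, 0 ≤ ℓ r) →
      (∀ r ∈ A, ∀ c ∈ T, a r c ≤ a' r c) → (∀ r ∈ A, ℓ r ≤ ℓ' r) →
      M a ℓ T A ≤ M a' ℓ' T A := by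
  induction T with
  | nil => intro A _ h _ h'; exact prod_le_prod h h'
  | cons c T ih =>
    intro A h1 h2 h3 h4
    rw [M_cons, M_cons]
    refine sum_le_sum fun r hr => mul_le_mul (h3 r hr c (List.mem_cons_self ..)) (ih _ ?_ ?_ ?_ ?_)
      (M_nonneg _ _ ?_ ?_) ((h1 r hr c (List.mem_cons_self ..)).trans
        (h3 r hr c (List.mem_cons_self ..)))
    · exact fun s hs d hd => h1 s (mem_of_mem_erase hs) d (List.mem_cons_of_mem _ hd)
    · exact fun s hs => h2 s (mem_of_mem_erase hs)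
    · exact fun s hs d hd => h3 s (mem_of_mem_erase hs) d (List.mem_cons_of_mem _ hd)
    · exact fun s hs => h4 s (mem_of_mem_erase hs)
    · exact fun s hs d hd => h1 s (mem_of_mem_erase hs) d (List.mem_cons_of_mem _ hd)
    · exact fun s hs => h2 s (mem_of_mem_erase hs)

theorem M_continuous (a : ρ → γ → ℝ) (ℓ : ρ → ℝ) (T : List γ) :
    ∀ A : Finset ρ, Continuous fun δ : ℝ => M (fun r c => a r c + δ) (fun r => ℓ r + δ) T A := by
  induction T with
  | nil => intro A; simp only [M_nil]; fun_prop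
  | cons c T ih =>
    intro A
    simp only [M_cons]
    exact continuous_finsetSum _ fun r _ => by
      have := ih (A.erase r)
      fun_prop

end Real

end Pool.Agent.H66.FX
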