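import Pool.Agent.H66.FX.Perm

/-!
# Mixed permanents count systems of links
-/

set_option linter.unusedSectionVars false

namespace Pool.Agent.H66.FX

open Finset

variable {ρ γ L : Type*} [DecidableEq ρ] [DecidableEq γ] [DecidableEq L]

/-- Sets of links meeting every column of `T` exactly once and every row of `A` at most once. -/
def PM (S : Finset L) (fr : L → ρ) (fc : L → γ) (T : List γ) (A : Finset ρ) :
    Finset (Finset L) :=
  S.powerset.filter fun I =>
    (∀ l ∈ I, fc l ∈ T ∧ fr l ∈ A) ∧ (∀ c ∈ T, ∃ l ∈ I, fc l = c) ∧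
    (∀ l ∈ I, ∀ l' ∈ I, fc l = fc l' → l = l') ∧ (∀ l ∈ I, ∀ l' ∈ I, fr l = fr l' → l = l')

theorem mem_PM {S : Finset L} {fr : L → ρ} {fc : L → γ} {T : List γ} {A : Finset ρ}
    {I : Finset L} : I ∈ PM S fr fc T A ↔ I ⊆ S ∧
      (∀ l ∈ I, fc l ∈ T ∧ fr l ∈ A) ∧ (∀ c ∈ T, ∃ l ∈ I, fc l = c) ∧
      (∀ l ∈ I, ∀ l' ∈ I, fc l = fc l' → l = l') ∧ (∀ l ∈ I, ∀ l' ∈ I, fr l = fr l' → l = l') := by
  rw [PM, mem_filter, mem_powerset]

theorem M_le_PM (S : Finset L) (fr : L → ρ) (fc : L → γ) (T : List γ) (hT : T.Nodup) :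
    ∀ A : Finset ρ, M (fun r c => (S.filter fun l => fr l = r ∧ fc l = c).card) (fun _ => 1) T A ≤
      (PM S fr fc T A).card := by
  induction T with
  | nil =>
    intro A
    rw [M_nil, prod_const_one]
    refine Nat.one_le_iff_ne_zero.2 (Finset.card_ne_zero_of_mem (a := ∅) ?_)
    simp [PM]
  | cons c T ih =>
    intro A
    rw [List.nodup_cons] at hT
    obtain ⟨hcT, hT⟩ := hT
    have ih := ih hT
    rw [M_cons]
    set S' := S.filter fun l => fc l = c ∧ fr l ∈ A with hS'
    have h1 : ∑ r ∈ A, (S.filter fun l => fr l = r ∧ fc l = c).card *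
        M (fun r c => (S.filter fun l => fr l = r ∧ fc l = c).card) (fun _ => 1) T (A.erase r) =
        ∑ l ∈ S', M (fun r c => (S.filter fun l => fr l = r ∧ fc l = c).card) (fun _ => 1) T
          (A.erase (fr l)) := by
      rw [← Finset.sum_fiberwise_of_maps_to (s := S') (t := A) (g := fr)
        (fun l hl => ((mem_filter.1 hl).2).2)]
      refine sum_congr rfl fun r hr => ?_
      have h2 : ∀ l ∈ S'.filter (fun l => fr l = r),
          M (fun r c => (S.filter fun l => fr l = r ∧ fc l = c).card) (fun _ => 1) T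
            (A.erase (fr l)) =
          M (fun r c => (S.filter fun l => fr l = r ∧ fc l = c).card) (fun _ => 1) T
            (A.erase r) := by
        intro l hl; rw [(mem_filter.1 hl).2]
      rw [sum_congr rfl h2, sum_const, smul_eq_mul]
      congr 2
      rw [hS', Finset.filter_filter]
      refine filter_congr fun l _ => ?_
      constructor
      · rintro ⟨h3, h4⟩; exact ⟨⟨h4, by rw [h3]; exact hr⟩, h3⟩
      · rintro ⟨⟨h3, _⟩, h4⟩; exact ⟨h4, h3⟩
    rw [h1]
    calc ∑ l ∈ S', M (fun r c => (S.filter fun l => fr l = r ∧ fc l = c).card) (fun _ => 1) T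
          (A.erase (fr l))
        ≤ ∑ l ∈ S', (PM S fr fc T (A.erase (fr l))).card := sum_le_sum fun l _ => ih _
      _ = (S'.sigma fun l => PM S fr fc T (A.erase (fr l))).card := (Finset.card_sigma _ _).symm
      _ ≤ (PM S fr fc (c :: T) A).card := by
        refine Finset.card_le_card_of_injOn (fun x => insert x.1 x.2) ?_ ?_
        · rintro ⟨l, I⟩ hx
          rw [Finset.mem_coe, Finset.mem_sigma] at hx
          obtain ⟨hl, hI⟩ := hx
          rw [hS', mem_filter] at hl
          obtain ⟨hlS, hlc, hlA⟩ := hl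
          rw [PM, mem_filter, mem_powerset] at hI
          obtain ⟨hIS, hI1, hI2, hI3, hI4⟩ := hI
          have hlr : ∀ l' ∈ I, fr l' ≠ fr l := fun l' hl' h =>
            (mem_erase.1 (hI1 l' hl').2).1 h
          have hlcn : ∀ l' ∈ I, fc l' ≠ fc l := fun l' hl' h =>
            hcT (by rw [← hlc, ← h]; exact (hI1 l' hl').1)
          rw [Finset.mem_coe, PM, mem_filter, mem_powerset]
          refine ⟨insert_subset hlS hIS, ?_, ?_, ?_, ?_⟩
          · intro l' hl'
            rcases mem_insert.1 hl' with rfl | hl'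
            · exact ⟨by rw [hlc]; exact List.mem_cons_self .., hlA⟩
            · exact ⟨List.mem_cons_of_mem _ (hI1 l' hl').1, mem_of_mem_erase (hI1 l' hl').2⟩
          · intro c' hc'
            rcases List.mem_cons.1 hc' with rfl | hc'
            · exact ⟨l, mem_insert_self _ _, hlc⟩
            · obtain ⟨l', hl', h⟩ := hI2 c' hc'
              exact ⟨l', mem_insert_of_mem hl', h⟩
          · intro l1 h1 l2 h2 h
            rcases mem_insert.1 h1 with rfl | h1 <;> rcases mem_insert.1 h2 with rfl | h2
            · rfl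
            · exact absurd h.symm (hlcn l2 h2)
            · exact absurd h (hlcn l1 h1)
            · exact hI3 l1 h1 l2 h2 h
          · intro l1 h1 l2 h2 h
            rcases mem_insert.1 h1 with rfl | h1 <;> rcases mem_insert.1 h2 with rfl | h2
            · rfl
            · exact absurd h.symm (hlr l2 h2)
            · exact absurd h (hlr l1 h1)
            · exact hI4 l1 h1 l2 h2 h
        · rintro ⟨l, I⟩ hx ⟨l', I'⟩ hx' h
          rw [Finset.mem_coe, Finset.mem_sigma] at hx hx'
          obtain ⟨hl, hI⟩ := hx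
          obtain ⟨hl', hI'⟩ := hx'
          rw [hS', mem_filter] at hl hl'
          rw [PM, mem_filter, mem_powerset] at hI hI'
          simp only at h
          have hnl : ∀ l'' ∈ I, fc l'' ≠ c := fun l'' hl'' hh =>
            hcT (by rw [← hh]; exact (hI.2.1 l'' hl'').1)
          have hnl' : ∀ l'' ∈ I', fc l'' ≠ c := fun l'' hl'' hh =>
            hcT (by rw [← hh]; exact (hI'.2.1 l'' hl'').1)
          have hll : l = l' := by
            have : l ∈ insert l' I' := by rw [← h]; exact mem_insert_self _ _
            rcases mem_insert.1 this with h | h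
            · exact h
            · exact absurd hl.2.1 (hnl' l h)
          subst hll
          have hlI : l ∉ I := fun hh => hnl l hh hl.2.1
          have hlI' : l ∉ I' := fun hh => hnl' l hh hl.2.1
          have hII : I = I' := by
            rw [← Finset.erase_insert hlI, ← Finset.erase_insert hlI', h]
          subst hII
          rfl

end Pool.Agent.H66.FX
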